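import Mathlib

set_option autoImplicit false

/-!
# Near-one-factorizations from systems of involutions, and Hamiltonian paths
-/

namespace Pool.Agent.Helper53.P1F

open Finset

variable {V : Type*} [Fintype V] [DecidableEq V]

/-- The edges of the matching given by an involution `f`. -/
def fe (f : V → V) : Finset (Sym2 V) :=
  (univ.filter (fun x => f x ≠ x)).image (fun x => s(x, f x))

theorem mk_mem_fe {f : V → V} (hf : ∀ x, f (f x) = x) {x y : V} :
    s(x, y) ∈ fe f ↔ x ≠ y ∧ f x = y := by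
  unfold fe
  simp only [mem_image, mem_filter, mem_univ, true_and, Sym2.eq_iff]
  constructor
  · rintro ⟨z, hz, (⟨rfl, rfl⟩ | ⟨rfl, rfl⟩)⟩
    · exact ⟨fun h => hz h.symm, rfl⟩
    · exact ⟨hz, hf z⟩
  · rintro ⟨hxy, rfl⟩
    exact ⟨x, fun h => hxy h.symm, Or.inl ⟨rfl, rfl⟩⟩

theorem card_fe {f : V → V} (hf : ∀ x, f (f x) = x) :
    2 * (fe f).card = (univ.filter (fun x => f x ≠ x)).card := by
  have h := Finset.card_eq_sum_card_image (fun x => s(x, f x)) (univ.filter (fun x : V => f x ≠ x))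
  rw [h]
  have h2 : ∀ e ∈ (univ.filter (fun x : V => f x ≠ x)).image (fun x => s(x, f x)),
      ((univ.filter (fun x : V => f x ≠ x)).filter (fun x => s(x, f x) = e)).card = 2 := by
    intro e he
    simp only [mem_image, mem_filter, mem_univ, true_and] at he
    obtain ⟨x, hx, rfl⟩ := he
    rw [Finset.card_eq_two]
    refine ⟨x, f x, fun h => hx h.symm, ?_⟩
    ext y
    simp only [mem_filter, mem_univ, true_and, Sym2.eq_iff, mem_insert, mem_singleton]
    constructor
    · rintro ⟨_, (⟨h, _⟩ | ⟨h, _⟩)⟩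
      · exact Or.inl h
      · exact Or.inr h
    · rintro (rfl | rfl)
      · exact ⟨hx, Or.inl ⟨rfl, rfl⟩⟩
      · refine ⟨?_, Or.inr ⟨rfl, hf x⟩⟩
        rw [hf x]; exact fun h => hx h.symm
  rw [Finset.sum_congr rfl h2, Finset.sum_const, smul_eq_mul, mul_comm]
  rfl

theorem card_fe_of_fix {f : V → V} (hf : ∀ x, f (f x) = x) {a : V} (ha : ∀ x, f x = x ↔ x = a) :
    2 * (fe f).card = Fintype.card V - 1 := by
  rw [card_fe hf]
  have : (univ.filter (fun x => f x ≠ x)) = univ.erase a := by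
    ext x
    simp [ha x]
  rw [this, Finset.card_erase_of_mem (mem_univ _), Finset.card_univ]

/-- Orbit of `b` under two maps. -/
inductive Orb (f g : V → V) (b : V) : V → Prop
  | base : Orb f g b b
  | stepf {x : V} : Orb f g b x → Orb f g b (f x)
  | stepg {x : V} : Orb f g b x → Orb f g b (g x)

theorem Orb.mem_of_closed {f g : V → V} {b : V} (S : Set V)
    (hf : ∀ x ∈ S, f x ∈ S) (hg : ∀ x ∈ S, g x ∈ S) (hb : b ∈ S) {x : V} (h : Orb f g b x) :
    x ∈ S := by
  induction h with
  | base => exact hb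
  | stepf _ ih => exact hf _ ih
  | stepg _ ih => exact hg _ ih

theorem Orb.back {f g : V → V} {b : V} (hff : ∀ x, f (f x) = x) (hgg : ∀ x, g (g x) = x)
    (S : Set V) (hf : ∀ x ∈ S, f x ∈ S) (hg : ∀ x ∈ S, g x ∈ S) {x : V} (h : Orb f g b x)
    (hx : x ∈ S) : b ∈ S := by
  induction h with
  | base => exact hx
  | @stepf y _ ih => exact ih (by have := hf _ hx; rwa [hff] at this)
  | @stepg y _ ih => exact ih (by have := hg _ hx; rwa [hgg] at this)

/-- The graph given by two involutions. -/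
def gr (f g : V → V) (hf : ∀ x, f (f x) = x) (hg : ∀ x, g (g x) = x) : SimpleGraph V where
  Adj x y := x ≠ y ∧ (f x = y ∨ g x = y)
  symm := ⟨by
    rintro x y ⟨h, (h' | h')⟩
    · exact ⟨h.symm, Or.inl (by rw [← h', hf])⟩
    · exact ⟨h.symm, Or.inr (by rw [← h', hg])⟩⟩
  loopless := ⟨fun x h => h.1 rfl⟩

theorem closed_step {f g : V → V} (hf : ∀ x, f (f x) = x) (hg : ∀ x, g (g x) = x) {u v : V}
    (p : (gr f g hf hg).Walk u v) (hp : p.IsPath)
    (hmax : ∀ (u' v' : V) (p' : (gr f g hf hg).Walk u' v'), p'.IsPath → p'.length ≤ p.length)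
    (x y : V) (hx : x ∈ p.support) (hxy : f x = y ∨ g x = y) : y ∈ p.support := by
  classical
  by_contra hy
  have hne : x ≠ y := fun h => hy (h ▸ hx)
  have hadj : (gr f g hf hg).Adj x y := ⟨hne, hxy⟩
  obtain ⟨k, hk, hkl⟩ := SimpleGraph.Walk.mem_support_iff_exists_getVert.mp hx
  by_cases h0 : k = 0
  · subst h0
    rw [SimpleGraph.Walk.getVert_zero] at hk
    subst hk
    have h1 := hmax y v (SimpleGraph.Walk.cons hadj.symm p)
      ((SimpleGraph.Walk.cons_isPath_iff _ _).mpr ⟨hp, hy⟩)
    rw [SimpleGraph.Walk.length_cons] at h1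
    omega
  by_cases hL : k = p.length
  · subst hL
    rw [SimpleGraph.Walk.getVert_length] at hk
    subst hk
    have h1 := hmax u y (p.concat hadj) (hp.concat hy hadj)
    rw [SimpleGraph.Walk.length_concat] at h1
    omega
  have hkl' : k < p.length := lt_of_le_of_ne hkl hL
  obtain ⟨m, rfl⟩ : ∃ m, k = m + 1 := ⟨k - 1, by omega⟩
  have a1 : (gr f g hf hg).Adj (p.getVert m) (p.getVert (m + 1)) :=
    p.adj_getVert_succ (by omega)
  have a2 : (gr f g hf hg).Adj (p.getVert (m + 1)) (p.getVert (m + 1 + 1)) :=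
    p.adj_getVert_succ (by omega)
  have hd : p.getVert m ≠ p.getVert (m + 1 + 1) := by
    intro h
    have := hp.getVert_injOn (show m ∈ {i | i ≤ p.length} by simp; omega)
      (show m + 1 + 1 ∈ {i | i ≤ p.length} by simp; omega) h
    omega
  have m1 : p.getVert m ∈ p.support := p.getVert_mem_support _
  have m2 : p.getVert (m + 1 + 1) ∈ p.support := p.getVert_mem_support _
  rw [hk] at a1 a2
  have b1 := a1.symm.2
  have b2 := a2.2
  have c1 : p.getVert m ≠ y := fun h => hy (h ▸ m1)
  have c2 : p.getVert (m + 1 + 1) ≠ y := fun h => hy (h ▸ m2)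
  rcases hxy with h | h <;> rcases b1 with h1 | h1 <;> rcases b2 with h2 | h2 <;>
    first
    | exact c1 (h1.symm.trans h)
    | exact c2 (h2.symm.trans h)
    | exact hd (h1.symm.trans h2)

theorem exists_ham {f g : V → V} (hf : ∀ x, f (f x) = x) (hg : ∀ x, g (g x) = x)
    {a a' : V} (ha : ∀ x, f x = x ↔ x = a) (ha' : ∀ x, g x = x ↔ x = a')
    {b : V} (hb : ∀ x, Orb f g b x) :
    ∃ u v : V, ∃ p : (⊤ : SimpleGraph V).Walk u v,
      p.IsHamiltonian ∧ p.edges.toFinset = fe f ∪ fe g := by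
  classical
  have : Nonempty V := ⟨a⟩
  obtain ⟨u, v, p, hp, hmax⟩ :=
    SimpleGraph.Walk.exists_isPath_forall_isPath_length_le_length (gr f g hf hg)
  have hmax' : ∀ (u' v' : V) (p' : (gr f g hf hg).Walk u' v'), p'.IsPath →
      p'.length ≤ p.length := fun u' v' p' hp' => hmax u' v' p' hp'
  have hcl := closed_step hf hg p hp hmax'
  set S : Set V := {x | x ∈ p.support} with hS
  have hSf : ∀ x ∈ S, f x ∈ S := fun x hx => hcl x _ hx (Or.inl rfl)
  have hSg : ∀ x ∈ S, g x ∈ S := fun x hx => hcl x _ hx (Or.inr rfl)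
  have hbS : b ∈ S := Orb.back hf hg S hSf hSg (hb u) p.start_mem_support
  have hall : ∀ x, x ∈ p.support := fun x => Orb.mem_of_closed S hSf hSg hbS (hb x)
  have hham : p.IsHamiltonian := hp.isHamiltonian_of_mem hall
  refine ⟨u, v, p.mapLe le_top, ?_, ?_⟩
  · intro c
    rw [SimpleGraph.Walk.support_mapLe_eq_support]
    exact hham c
  · rw [SimpleGraph.Walk.edges_mapLe_eq_edges]
    apply Finset.eq_of_subset_of_card_le
    · intro e he
      rw [List.mem_toFinset] at he
      have := p.edges_subset_edgeSet he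
      induction e with
      | _ x y =>
        rw [SimpleGraph.mem_edgeSet] at this
        rw [Finset.mem_union, mk_mem_fe hf, mk_mem_fe hg]
        obtain ⟨h1, (h2 | h2)⟩ := this
        · exact Or.inl ⟨h1, h2⟩
        · exact Or.inr ⟨h1, h2⟩
    · have h1 : p.edges.toFinset.card = Fintype.card V - 1 := by
        rw [List.toFinset_card_of_nodup hp.isTrail.edges_nodup, SimpleGraph.Walk.length_edges,
          hham.length_eq]
      rw [h1]
      have h2 := card_fe_of_fix hf ha
      have h3 := card_fe_of_fix hg ha'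
      have h4 := Finset.card_union_le (fe f) (fe g)
      omega

end Pool.Agent.Helper53.P1F
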