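import Mathlib

set_option autoImplicit false

/-!
# Definitions for Kotzig's perfect one-factorization conjecture (MP_47b9a3_co)
-/

namespace Pool.Agent.Helper53.P1F

/-- `F` is a partition of the edges of the complete graph on `Fin n` into `n` nearly linear
factors: every `F i` is a set of `(n-1)/2` proper edges no two of which share a vertex, and every
proper edge lies in exactly one `F i`.  (The first four clauses of the frozen statement
`S08519`, word for word.) -/
def IsNearFactorization (n : ℕ) (F : Fin n → Finset (Sym2 (Fin n))) : Prop :=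
  (∀ i, (F i).card = (n - 1) / 2) ∧
  (∀ i, ∀ e ∈ F i, ¬ e.IsDiag) ∧
  (∀ i, ∀ v : Fin n, ((F i).filter (fun e => v ∈ e)).card ≤ 1) ∧
  (∀ e : Sym2 (Fin n), ¬ e.IsDiag → ∃! i, e ∈ F i)

/-- The union of the two edge sets `A`, `B` is exactly the edge set of a Hamiltonian path of the
complete graph on `Fin n`.  (The last clause of the frozen statement `S08519`.) -/
def HamPair {n : ℕ} (A B : Finset (Sym2 (Fin n))) : Prop :=
  ∃ u v : Fin n, ∃ p : (⊤ : SimpleGraph (Fin n)).Walk u v,
    p.IsHamiltonian ∧ p.edges.toFinset = A ∪ B

end Pool.Agent.Helper53.P1F
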