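import Mathlib
import Pool.Agent.Helper53.P1F.Defs
import Pool.Agent.Helper53.P1F.Basic

set_option autoImplicit false

/-!
# From a system of involutions on a type with `n` elements to near-one-factorizations of `K_n`
-/

namespace Pool.Agent.Helper53.P1F

open Finset

theorem Orb.transport {V W : Type*} (e : V ≃ W) {f g : V → V} {b x : V} (h : Orb f g b x) :
    Orb (fun y => e (f (e.symm y))) (fun y => e (g (e.symm y))) (e b) (e x) := by
  induction h with
  | base => exact Orb.base
  | @stepf y _ ih => simpa using ih.stepf
  | @stepg y _ ih => simpa using ih.stepg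

/-- A system of involutions on `Fin n`. -/
theorem near_of_system {n : ℕ} (f : Fin n → Fin n → Fin n)
    (inv : ∀ i x, f i (f i x) = x) (inj : ∀ x i j, f i x = f j x → i = j)
    (a : Fin n → Fin n) (fix : ∀ i x, f i x = x ↔ x = a i) :
    IsNearFactorization n (fun i => fe (f i)) := by
  refine ⟨?_, ?_, ?_, ?_⟩
  · intro i
    have := card_fe_of_fix (inv i) (fix i)
    rw [Fintype.card_fin] at this
    show (fe (f i)).card = _
    omega
  · intro i e he
    induction e with
    | _ x y =>
      rw [mk_mem_fe (inv i)] at he
      simpa using he.1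
  · intro i v
    rw [Finset.card_le_one]
    have key : ∀ e ∈ (fe (f i)).filter (fun e => v ∈ e), e = s(v, f i v) := by
      intro e he
      rw [mem_filter] at he
      obtain ⟨h1, h2⟩ := he
      obtain ⟨y, rfl⟩ := Sym2.mem_iff_exists.mp h2
      rw [mk_mem_fe (inv i)] at h1
      rw [h1.2]
    intro e he e' he'
    rw [key e he, key e' he']
  · intro e he
    induction e with
    | _ x y =>
      have hxy : x ≠ y := by simpa using he
      have hinj : Function.Injective (fun i => f i x) := fun i j h => inj x i j h
      obtain ⟨i, hi⟩ := (Finite.injective_iff_surjective.mp hinj) y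
      refine ⟨i, ?_, ?_⟩
      · show s(x, y) ∈ fe (f i)
        rw [mk_mem_fe (inv i)]
        exact ⟨hxy, hi⟩
      · intro j hj
        have hj' : s(x, y) ∈ fe (f j) := hj
        rw [mk_mem_fe (inv j)] at hj'
        exact inj x j i (hj'.2.trans hi.symm)

theorem exists_near {V : Type*} [Fintype V] [DecidableEq V] {n : ℕ} (hn : Fintype.card V = n)
    (f : V → V → V)
    (inv : ∀ i x, f i (f i x) = x) (inj : ∀ x i j, f i x = f j x → i = j)
    (a : V → V) (fix : ∀ i x, f i x = x ↔ x = a i) :
    ∃ F : Fin n → Finset (Sym2 (Fin n)), IsNearFactorization n F ∧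
      ∃ e : V ≃ Fin n, ∀ i j : V, (∃ b, ∀ x, Orb (f i) (f j) b x) →
        HamPair (F (e i)) (F (e j)) := by
  subst hn
  let e : V ≃ Fin (Fintype.card V) := Fintype.equivFin V
  let f' : Fin (Fintype.card V) → Fin (Fintype.card V) → Fin (Fintype.card V) :=
    fun i x => e (f (e.symm i) (e.symm x))
  have inv' : ∀ i x, f' i (f' i x) = x := by
    intro i x
    simp [f', inv]
  have inj' : ∀ x i j, f' i x = f' j x → i = j := by
    intro x i j h
    have h1 := e.injective h
    exact e.symm.injective (inj _ _ _ h1)
  have fix' : ∀ i x, f' i x = x ↔ x = (fun i => e (a (e.symm i))) i := by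
    intro i x
    show e (f (e.symm i) (e.symm x)) = x ↔ x = e (a (e.symm i))
    rw [← Equiv.eq_symm_apply, fix, Equiv.symm_apply_eq]
  refine ⟨fun i => fe (f' i), near_of_system f' inv' inj' _ fix', e, ?_⟩
  rintro i j ⟨b, hb⟩
  have hb' : ∀ x, Orb (f' (e i)) (f' (e j)) (e b) x := by
    intro x
    have := (hb (e.symm x)).transport e
    rw [Equiv.apply_symm_apply] at this
    have h1 : (fun y => e (f i (e.symm y))) = f' (e i) := by
      funext y; simp [f']
    have h2 : (fun y => e (f j (e.symm y))) = f' (e j) := by
      funext y; simp [f']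
    rw [h1, h2] at this
    exact this
  exact exists_ham (inv' _) (inv' _) (fix' _) (fix' _) hb'

end Pool.Agent.Helper53.P1F
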