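import Mathlib
import Pool.Agent.Helper53.P1F.System

set_option autoImplicit false
set_option linter.unusedSectionVars false

/-!
# The construction: `ZMod m` together with the nonzero elements of `ZMod q`
-/

namespace Pool.Agent.Helper53.P1F

open Finset

/-! ### Positions along the cycle of step `2 z` -/

section pos

variable {m : ℕ} [NeZero m]

theorem two_unit (hm : Odd m) : IsUnit (2 : ZMod m) := by
  have h : Nat.Coprime 2 m := (Nat.coprime_two_left).mpr hm
  have := (ZMod.isUnit_iff_coprime 2 m).mpr h
  simpa using this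

/-- `tt z x` is the number `t < m` with `x = z (1 + 2 t)` (`z` a unit, `m` odd). -/
noncomputable def tt (z x : ZMod m) : ℕ := ((x * z⁻¹ - 1) * (2 : ZMod m)⁻¹).val

theorem tt_lt (z x : ZMod m) : tt z x < m := ZMod.val_lt _

theorem tt_spec (hm : Odd m) {z : ZMod m} (hz : IsUnit z) (x : ZMod m) :
    x = z * (1 + 2 * (tt z x : ZMod m)) := by
  unfold tt
  rw [ZMod.natCast_zmod_val]
  have h2 : (2 : ZMod m) * 2⁻¹ = 1 := ZMod.mul_inv_of_unit _ (two_unit hm)
  have hz' : z * z⁻¹ = 1 := ZMod.mul_inv_of_unit _ hz
  have : z * (1 + 2 * ((x * z⁻¹ - 1) * 2⁻¹)) = z * (1 + (x * z⁻¹ - 1) * (2 * 2⁻¹)) := by ring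
  rw [this, h2]
  have : z * (1 + (x * z⁻¹ - 1) * 1) = x * (z * z⁻¹) := by ring
  rw [this, hz', mul_one]

theorem tt_unique (hm : Odd m) {z : ZMod m} (hz : IsUnit z) {x : ZMod m} {t : ℕ} (ht : t < m)
    (h : x = z * (1 + 2 * (t : ZMod m))) : tt z x = t := by
  have h1 := tt_spec hm hz x
  have h2 : z * (1 + 2 * (tt z x : ZMod m)) = z * (1 + 2 * (t : ZMod m)) := h1.symm.trans h
  have h3 := hz.mul_left_cancel h2
  have h4 := (two_unit hm).mul_left_cancel (add_left_cancel h3)
  have h5 : (tt z x) % m = t % m := (ZMod.natCast_eq_natCast_iff' _ _ _).mp h4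
  rwa [Nat.mod_eq_of_lt (tt_lt z x), Nat.mod_eq_of_lt ht] at h5

theorem tt_eq_zero (hm : Odd m) {z : ZMod m} (hz : IsUnit z) {x : ZMod m} :
    tt z x = 0 ↔ x = z := by
  constructor
  · intro h
    have := tt_spec hm hz x
    rw [h] at this
    simpa using this
  · rintro rfl
    exact tt_unique hm hz (NeZero.pos m) (by simp)

theorem tt_succ (hm : Odd m) {z : ZMod m} (hz : IsUnit z) {x : ZMod m} (h : Odd (tt z x)) :
    tt z (x + 2 * z) = tt z x + 1 := by
  have hlt : tt z x + 1 < m := by
    have h1 := tt_lt z x
    rcases Nat.lt_or_ge (tt z x + 1) m with h2 | h2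
    · exact h2
    · exfalso
      have h3 : tt z x + 1 = m := by omega
      rw [← h3] at hm
      rcases h with ⟨a, ha⟩
      rcases hm with ⟨b, hb⟩
      omega
  apply tt_unique hm hz hlt
  have := tt_spec hm hz x
  push_cast
  linear_combination this

theorem tt_pred (hm : Odd m) {z : ZMod m} (hz : IsUnit z) {x : ZMod m} (h : tt z x ≠ 0) :
    tt z (x - 2 * z) + 1 = tt z x := by
  obtain ⟨s, hs⟩ : ∃ s, tt z x = s + 1 := ⟨tt z x - 1, by omega⟩
  have hlt : s < m := by have := tt_lt z x; omega
  have : tt z (x - 2 * z) = s := by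
    apply tt_unique hm hz hlt
    have := tt_spec hm hz x
    rw [hs] at this
    push_cast at this
    linear_combination this
  omega

theorem tt_neg (hm : Odd m) {z : ZMod m} (hz : IsUnit z) {x : ZMod m} :
    tt (-z) x + tt z x + 1 = m := by
  have hlt := tt_lt z x
  have : tt (-z) x = m - 1 - tt z x := by
    apply tt_unique hm hz.neg (by omega)
    have h := tt_spec hm hz x
    have hc : ((m - 1 - tt z x : ℕ) : ZMod m) = -1 - (tt z x : ZMod m) := by
      have h1 : (((m - 1 - tt z x : ℕ) + (1 + tt z x) : ℕ) : ZMod m) = 0 := by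
        have : (m - 1 - tt z x) + (1 + tt z x) = m := by omega
        rw [this]
        exact ZMod.natCast_self m
      push_cast at h1
      linear_combination h1
    rw [hc]
    linear_combination h
  omega

theorem tt_neg_odd (hm : Odd m) {z : ZMod m} (hz : IsUnit z) {x : ZMod m} :
    Odd (tt (-z) x) ↔ Odd (tt z x) := by
  have h := tt_neg hm hz (x := x)
  rcases hm with ⟨b, hb⟩
  constructor
  · rintro ⟨c, hc⟩
    exact ⟨b - c - 1, by omega⟩
  · rintro ⟨c, hc⟩
    exact ⟨b - c - 1, by omega⟩

/-- The near-perfect matching of the cycle of step `2 z` missing `z`. -/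
noncomputable def mat (z x : ZMod m) : ZMod m :=
  if Odd (tt z x) then x + 2 * z else x - 2 * z

theorem mat_mat (hm : Odd m) {z : ZMod m} (hz : IsUnit z) {x : ZMod m} (hx : x ≠ z) :
    mat z (mat z x) = x := by
  unfold mat
  by_cases h : Odd (tt z x)
  · rw [if_pos h]
    have h1 := tt_succ hm hz h
    have h2 : ¬ Odd (tt z (x + 2 * z)) := by
      rw [h1]
      rintro ⟨c, hc⟩
      obtain ⟨d, hd⟩ := h
      omega
    rw [if_neg h2]
    ring
  · rw [if_neg h]
    have h0 : tt z x ≠ 0 := fun h' => hx ((tt_eq_zero hm hz).mp h')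
    have h1 := tt_pred hm hz h0
    have h2 : Odd (tt z (x - 2 * z)) := by
      rw [Nat.not_odd_iff_even] at h
      obtain ⟨d, hd⟩ := h
      exact ⟨d - 1, by omega⟩
    rw [if_pos h2]
    ring

theorem mat_ne (hm : Odd m) {z : ZMod m} (hz : IsUnit z) {x : ZMod m} (hx : x ≠ z) :
    mat z x ≠ z := by
  intro h
  unfold mat at h
  by_cases ho : Odd (tt z x)
  · rw [if_pos ho] at h
    have h1 := tt_succ hm hz ho
    rw [h, (tt_eq_zero hm hz).mpr rfl] at h1
    omega
  · rw [if_neg ho] at h
    have h0 : tt z x ≠ 0 := fun h' => hx ((tt_eq_zero hm hz).mp h')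
    have h1 := tt_pred hm hz h0
    rw [h, (tt_eq_zero hm hz).mpr rfl] at h1
    rw [Nat.not_odd_iff_even] at ho
    obtain ⟨d, hd⟩ := ho
    omega

end pos

/-! ### The vertex set and the factors -/

section construction

variable {m q : ℕ} [NeZero m] [NeZero q]

/-- The nonzero residues modulo `q`. -/
abbrev NZ (q : ℕ) := {w : ZMod q // w ≠ 0}

/-- Hypotheses on the gluing map `z`. -/
structure Glue (m q : ℕ) (z : ZMod q → ZMod m) : Prop where
  neg : ∀ w, z (-w) = - z w
  inj : ∀ w w', w ≠ 0 → w' ≠ 0 → z w = z w' → w = w'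
  unit : ∀ w, w ≠ 0 → IsUnit (z w)

/-- negation on nonzero residues -/
def ng (w : NZ q) : NZ q := ⟨-w.1, neg_ne_zero.mpr w.2⟩

@[simp] theorem ng_ng (w : NZ q) : ng (ng w) = w := by
  apply Subtype.ext; simp [ng]

open Classical in
/-- The factors, as involutions. -/
noncomputable def fac (z : ZMod q → ZMod m) : ZMod m ⊕ NZ q → ZMod m ⊕ NZ q → ZMod m ⊕ NZ q
  | .inl i, .inl x =>
      if i = 0 then .inl (-x) else
        if h : ∃ w : NZ q, x = i + z w.1 then .inr h.choose else .inl (2 * i - x)
  | .inl i, .inr w => if i = 0 then .inr (ng w) else .inl (i + z w.1)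
  | .inr l, .inr y => if y = l then .inl (z l.1) else
        if h : 2 * l.1 - y.1 = 0 then .inr y else .inr ⟨2 * l.1 - y.1, h⟩
  | .inr l, .inl x => if x = z l.1 then .inr l else .inl (mat (z l.1) x)

variable {z : ZMod q → ZMod m}

theorem fac_0x (x : ZMod m) : fac z (.inl 0) (.inl x) = .inl (-x) := by
  simp [fac]

theorem fac_0w (w : NZ q) : fac z (.inl 0) (.inr w) = .inr (ng w) := by
  simp [fac]

theorem fac_iw {i : ZMod m} (hi : i ≠ 0) (w : NZ q) :
    fac z (.inl i) (.inr w) = .inl (i + z w.1) := by
  simp [fac, hi]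

theorem fac_iz (hz : Glue m q z) {i : ZMod m} (hi : i ≠ 0) (w : NZ q) :
    fac z (.inl i) (.inl (i + z w.1)) = .inr w := by
  have h : ∃ w' : NZ q, i + z w.1 = i + z w'.1 := ⟨w, rfl⟩
  simp only [fac, if_neg hi, dif_pos h]
  congr 1
  have := h.choose_spec
  apply Subtype.ext
  exact (hz.inj _ _ w.2 h.choose.2 (add_left_cancel this)).symm

theorem fac_ix {i : ZMod m} (hi : i ≠ 0) {x : ZMod m} (hx : ∀ w : NZ q, x ≠ i + z w.1) :
    fac z (.inl i) (.inl x) = .inl (2 * i - x) := by
  have h : ¬ ∃ w' : NZ q, x = i + z w'.1 := by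
    rintro ⟨w, hw⟩; exact hx w hw
  simp only [fac, if_neg hi, dif_neg h]

theorem fac_ll (l : NZ q) : fac z (.inr l) (.inr l) = .inl (z l.1) := by
  simp [fac]

theorem fac_l2 {l y : NZ q} (h1 : y ≠ l) (h2 : 2 * l.1 - y.1 = 0) :
    fac z (.inr l) (.inr y) = .inr y := by
  simp [fac, h1, h2]

theorem fac_ly {l y : NZ q} (h1 : y ≠ l) (h2 : 2 * l.1 - y.1 ≠ 0) :
    fac z (.inr l) (.inr y) = .inr ⟨2 * l.1 - y.1, h2⟩ := by
  simp only [fac, if_neg h1, dif_neg h2]

theorem fac_lz (l : NZ q) : fac z (.inr l) (.inl (z l.1)) = .inr l := by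
  simp [fac]

theorem fac_lx {l : NZ q} {x : ZMod m} (h : x ≠ z l.1) :
    fac z (.inr l) (.inl x) = .inl (mat (z l.1) x) := by
  simp only [fac, if_neg h]

theorem fac_inv (hm : Odd m) (hz : Glue m q z) (i x : ZMod m ⊕ NZ q) :
    fac z i (fac z i x) = x := by
  rcases i with i | l
  · by_cases hi : i = 0
    · subst hi
      rcases x with x | w
      · rw [fac_0x, fac_0x, neg_neg]
      · rw [fac_0w, fac_0w, ng_ng]
    · rcases x with x | w
      · by_cases hx : ∃ w : NZ q, x = i + z w.1
        · obtain ⟨w, rfl⟩ := hx
          rw [fac_iz hz hi, fac_iw hi]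
        · push Not at hx
          rw [fac_ix hi hx, fac_ix hi]
          · congr 1; ring
          · intro w hw
            apply hx (ng w)
            show x = i + z (-w.1)
            rw [hz.neg]
            linear_combination -hw
      · rw [fac_iw hi, fac_iz hz hi]
  · rcases x with x | y
    · by_cases hx : x = z l.1
      · subst hx
        rw [fac_lz, fac_ll]
      · rw [fac_lx hx, fac_lx (mat_ne hm (hz.unit _ l.2) hx), mat_mat hm (hz.unit _ l.2) hx]
    · by_cases hy : y = l
      · subst hy
        rw [fac_ll, fac_lz]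
      · by_cases h2 : 2 * l.1 - y.1 = 0
        · rw [fac_l2 hy h2, fac_l2 hy h2]
        · have hy' : (⟨2 * l.1 - y.1, h2⟩ : NZ q) ≠ l := by
            intro h
            apply hy
            apply Subtype.ext
            have := congrArg Subtype.val h
            simp only at this
            linear_combination -this
          have h2' : 2 * l.1 - (⟨2 * l.1 - y.1, h2⟩ : NZ q).1 ≠ 0 := by
            simp only [sub_sub_cancel]
            exact y.2
          rw [fac_ly hy h2, fac_ly hy' h2']
          congr 1
          apply Subtype.ext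
          simp

open Classical in
/-- recovers the index of the factor from the partner of `inr y` -/
noncomputable def recW (z : ZMod q → ZMod m) (y : NZ q) : ZMod m ⊕ NZ q → ZMod m ⊕ NZ q
  | .inl v => if v = z y.1 then .inr y else .inl (v - z y.1)
  | .inr v => if v = ng y then .inl 0 else
      if v = y then (if h : (2 : ZMod q)⁻¹ * y.1 = 0 then .inl 0 else .inr ⟨(2 : ZMod q)⁻¹ * y.1, h⟩)
      else (if h : (2 : ZMod q)⁻¹ * (v.1 + y.1) = 0 then .inl 0
        else .inr ⟨(2 : ZMod q)⁻¹ * (v.1 + y.1), h⟩)

theorem half_two (hq : Odd q) (l : ZMod q) : (2 : ZMod q)⁻¹ * (2 * l) = l := by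
  have h2 : (2 : ZMod q)⁻¹ * 2 = 1 := ZMod.inv_mul_of_unit _ (two_unit hq)
  rw [← mul_assoc, h2, one_mul]

theorem recW_fac (hq : Odd q) (y : NZ q) (i : ZMod m ⊕ NZ q) :
    recW z y (fac z i (.inr y)) = i := by
  rcases i with i | l
  · by_cases hi : i = 0
    · subst hi
      rw [fac_0w]
      simp [recW]
    · rw [fac_iw hi]
      have : i + z y.1 ≠ z y.1 := fun h => hi (by linear_combination h)
      simp [recW, hi]
  · by_cases hl : y = l
    · subst hl
      rw [fac_ll]
      simp [recW]
    · by_cases h2 : 2 * l.1 - y.1 = 0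
      · rw [fac_l2 hl h2]
        have h3 : y ≠ ng y := by
          intro h
          have h4 : y.1 = - y.1 := congrArg Subtype.val h
          have h5 : (2 : ZMod q) * y.1 = 0 := by linear_combination h4
          have h6 := half_two hq y.1
          rw [h5, mul_zero] at h6
          exact y.2 h6.symm
        have h7 : (2 : ZMod q)⁻¹ * y.1 = l.1 := by
          have h8 : y.1 = 2 * l.1 := by linear_combination -h2
          rw [h8, half_two hq]
        have h9 : ¬ ((2 : ZMod q)⁻¹ * y.1 = 0) := by rw [h7]; exact l.2
        simp only [recW, if_neg h3, if_true, dif_neg h9]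
        congr 1
        exact Subtype.ext h7
      · rw [fac_ly hl h2]
        have h3 : (⟨2 * l.1 - y.1, h2⟩ : NZ q) ≠ ng y := by
          intro h
          have h4 : 2 * l.1 - y.1 = - y.1 := congrArg Subtype.val h
          have h5 : (2 : ZMod q) * l.1 = 0 := by linear_combination h4
          have h6 := half_two hq l.1
          rw [h5, mul_zero] at h6
          exact l.2 h6.symm
        have h3' : (⟨2 * l.1 - y.1, h2⟩ : NZ q) ≠ y := by
          intro h
          have h4 : 2 * l.1 - y.1 = y.1 := congrArg Subtype.val h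
          apply hl
          apply Subtype.ext
          have h5 : (2 : ZMod q) * l.1 = 2 * y.1 := by linear_combination h4
          have h6 := half_two hq l.1
          rw [h5, half_two hq] at h6
          exact h6
        have h7 : (2 : ZMod q)⁻¹ * ((⟨2 * l.1 - y.1, h2⟩ : NZ q).1 + y.1) = l.1 := by
          have : (⟨2 * l.1 - y.1, h2⟩ : NZ q).1 + y.1 = 2 * l.1 := by
            show 2 * l.1 - y.1 + y.1 = 2 * l.1
            ring
          rw [this, half_two hq]
        have h9 : ¬ ((2 : ZMod q)⁻¹ * ((⟨2 * l.1 - y.1, h2⟩ : NZ q).1 + y.1) = 0) := by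
          rw [h7]; exact l.2
        simp only [recW, if_neg h3, if_neg h3', dif_neg h9]
        congr 1
        exact Subtype.ext h7

open Classical in
/-- recovers the index of the factor from the partner of `inl x` -/
noncomputable def recX (z : ZMod q → ZMod m) (x : ZMod m) : ZMod m ⊕ NZ q → ZMod m ⊕ NZ q
  | .inr w => if x = z w.1 then .inr w else .inl (x - z w.1)
  | .inl v => if h : ∃ w : NZ q, v = x + 2 * z w.1 ∧ v ≠ -x then
        (if Odd (tt (z h.choose.1) x) then .inr h.choose else .inr (ng h.choose))
      else .inl ((2 : ZMod m)⁻¹ * (v + x))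

theorem recX_fac (hm : Odd m) (hz : Glue m q z) (x : ZMod m) (i : ZMod m ⊕ NZ q) :
    recX z x (fac z i (.inl x)) = i := by
  rcases i with i | l
  · by_cases hi : i = 0
    · subst hi
      rw [fac_0x]
      have : ¬ ∃ w : NZ q, -x = x + 2 * z w.1 ∧ -x ≠ -x := by
        rintro ⟨w, _, h⟩; exact h rfl
      simp only [recX, dif_neg this]
      simp
    · by_cases hx : ∃ w : NZ q, x = i + z w.1
      · obtain ⟨w, rfl⟩ := hx
        rw [fac_iz hz hi]
        have : ¬ (i + z w.1 = z w.1) := fun h => hi (by linear_combination h)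
        simp [recX, hi]
      · push Not at hx
        rw [fac_ix hi hx]
        have : ¬ ∃ w : NZ q, 2 * i - x = x + 2 * z w.1 ∧ 2 * i - x ≠ -x := by
          rintro ⟨w, h, _⟩
          apply hx (ng w)
          show x = i + z (-w.1)
          rw [hz.neg]
          have h1 : (2 : ZMod m) * (i - x) = 2 * z w.1 := by linear_combination h
          have h2 := (two_unit hm).mul_left_cancel h1
          linear_combination -h2
        simp only [recX, dif_neg this]
        congr 1
        have : 2 * i - x + x = 2 * i := by ring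
        rw [this]
        exact half_two hm i
  · by_cases hx : x = z l.1
    · subst hx
      rw [fac_lz]
      simp [recX]
    · rw [fac_lx hx]
      by_cases ho : Odd (tt (z l.1) x)
      · have hv : mat (z l.1) x = x + 2 * z l.1 := by simp [mat, ho]
        have hne : x + 2 * z l.1 ≠ -x := by
          intro h
          have h1 : (2 : ZMod m) * x = 2 * (- z l.1) := by linear_combination h
          have h2 := (two_unit hm).mul_left_cancel h1
          have h3 := (tt_neg_odd hm (hz.unit _ l.2) (x := x)).mpr ho
          rw [(tt_eq_zero hm (hz.unit _ l.2).neg).mpr h2] at h3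
          exact absurd h3 (by decide)
        have hex : ∃ w : NZ q, x + 2 * z l.1 = x + 2 * z w.1 ∧ x + 2 * z l.1 ≠ -x := ⟨l, rfl, hne⟩
        have hw : hex.choose = l := by
          have h1 := hex.choose_spec.1
          have h2 := (two_unit hm).mul_left_cancel (add_left_cancel h1)
          exact Subtype.ext (hz.inj _ _ l.2 hex.choose.2 h2).symm
        rw [hv]
        simp only [recX, dif_pos hex, hw, if_pos ho]
      · have hv : mat (z l.1) x = x - 2 * z l.1 := by simp [mat, ho]
        have hv' : mat (z l.1) x = x + 2 * z (ng l).1 := by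
          rw [hv]
          show x - 2 * z l.1 = x + 2 * z (-l.1)
          rw [hz.neg]; ring
        have hne : x + 2 * z (ng l).1 ≠ -x := by
          rw [← hv', hv]
          intro h
          have h1 : (2 : ZMod m) * x = 2 * (z l.1) := by linear_combination h
          exact hx ((two_unit hm).mul_left_cancel h1)
        have hex : ∃ w : NZ q, x + 2 * z (ng l).1 = x + 2 * z w.1 ∧ x + 2 * z (ng l).1 ≠ -x :=
          ⟨ng l, rfl, hne⟩
        have hw : hex.choose = ng l := by
          have h1 := hex.choose_spec.1
          have h2 := (two_unit hm).mul_left_cancel (add_left_cancel h1)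
          exact Subtype.ext (hz.inj _ _ (ng l).2 hex.choose.2 h2).symm
        have ho' : ¬ Odd (tt (z (ng l).1) x) := by
          show ¬ Odd (tt (z (-l.1)) x)
          rw [hz.neg, tt_neg_odd hm (hz.unit _ l.2)]
          exact ho
        rw [hv']
        simp only [recX, dif_pos hex, hw, if_neg ho', ng_ng]

theorem fac_inj (hm : Odd m) (hq : Odd q) (hz : Glue m q z) (x i j : ZMod m ⊕ NZ q)
    (h : fac z i x = fac z j x) : i = j := by
  rcases x with x | y
  · rw [← recX_fac hm hz x i, h, recX_fac hm hz x j]
  · rw [← recW_fac (z := z) hq y i, h, recW_fac hq y j]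

/-- `2 l` as a nonzero residue -/
def dbl (hq : Odd q) (l : NZ q) : NZ q := ⟨2 * l.1, fun h => l.2 (by
  have h6 := half_two hq l.1
  rw [h, mul_zero] at h6
  exact h6.symm)⟩

theorem fac_fix (hm : Odd m) (hq : Odd q) (hz : Glue m q z) (i x : ZMod m ⊕ NZ q) :
    fac z i x = x ↔ x = (match i with
      | .inl i => .inl i
      | .inr l => .inr (dbl hq l)) := by
  rcases i with i | l
  · by_cases hi : i = 0
    · subst hi
      rcases x with x | w
      · rw [fac_0x]
        constructor
        · intro h
          have h1 := Sum.inl_injective h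
          have h2 : (2 : ZMod m) * x = 2 * 0 := by linear_combination -h1
          rw [(two_unit hm).mul_left_cancel h2]
        · intro h
          rw [Sum.inl_injective h]; simp
      · rw [fac_0w]
        simp only [reduceCtorEq, iff_false]
        intro h
        have h1 := congrArg Subtype.val (Sum.inr_injective h)
        have h2 : (2 : ZMod q) * w.1 = 2 * 0 := by
          have : -w.1 = w.1 := h1
          linear_combination -this
        exact w.2 ((two_unit hq).mul_left_cancel h2)
    · rcases x with x | w
      · by_cases hx : ∃ w : NZ q, x = i + z w.1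
        · obtain ⟨w, rfl⟩ := hx
          rw [fac_iz hz hi]
          simp only [reduceCtorEq, false_iff]
          intro h
          have h1 := Sum.inl_injective h
          have h2 : z w.1 = 0 := by linear_combination h1
          have h3 := hz.neg w.1
          rw [h2, neg_zero, ← h2] at h3
          have h4 := hz.inj _ _ (ng w).2 w.2 h3
          have h5 : (2 : ZMod q) * w.1 = 2 * 0 := by
            have : -w.1 = w.1 := h4
            linear_combination -this
          exact w.2 ((two_unit hq).mul_left_cancel h5)
        · push Not at hx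
          rw [fac_ix hi hx]
          constructor
          · intro h
            have h1 := Sum.inl_injective h
            have h2 : (2 : ZMod m) * x = 2 * i := by linear_combination -h1
            rw [(two_unit hm).mul_left_cancel h2]
          · intro h
            rw [Sum.inl_injective h]
            congr 1
            ring
      · rw [fac_iw hi]
        simp
  · rcases x with x | y
    · by_cases hx : x = z l.1
      · subst hx
        rw [fac_lz]
        simp
      · rw [fac_lx hx]
        simp only [reduceCtorEq, iff_false]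
        intro h
        have h1 := Sum.inl_injective h
        have hu := hz.unit _ l.2
        have h0 : (2 : ZMod m) * z l.1 = 0 := by
          unfold mat at h1
          split_ifs at h1
          · linear_combination h1
          · linear_combination -h1
        have h2 : z l.1 = 0 := (two_unit hm).mul_left_cancel (by rw [h0, mul_zero])
        -- then everything in `ZMod m` is `0`
        rw [h2] at hu
        have h3 : (1 : ZMod m) = 0 := by
          have := isUnit_zero_iff.mp hu
          exact this.symm
        apply hx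
        calc x = 1 * x := (one_mul x).symm
          _ = 0 := by rw [h3, zero_mul]
          _ = z l.1 := h2.symm
    · by_cases hy : y = l
      · subst hy
        rw [fac_ll]
        simp only [reduceCtorEq, false_iff]
        intro h
        have h1 : y.1 = 2 * y.1 := congrArg Subtype.val (Sum.inr_injective h)
        exact y.2 (by linear_combination -h1)
      · by_cases h2 : 2 * l.1 - y.1 = 0
        · rw [fac_l2 hy h2]
          simp only [true_iff]
          congr 1
          apply Subtype.ext
          show y.1 = 2 * l.1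
          linear_combination -h2
        · rw [fac_ly hy h2]
          constructor
          · intro h
            exfalso
            apply hy
            apply Subtype.ext
            have h1 : 2 * l.1 - y.1 = y.1 := congrArg Subtype.val (Sum.inr_injective h)
            have h3 : (2 : ZMod q) * y.1 = 2 * l.1 := by linear_combination -h1
            exact (two_unit hq).mul_left_cancel h3
          · intro h
            exfalso
            apply h2
            have h1 : y.1 = 2 * l.1 := congrArg Subtype.val (Sum.inr_injective h)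
            rw [h1]; ring

/-! ### Connectivity -/

theorem Orb.swap {V : Type*} {f g : V → V} {b x : V} (h : Orb f g b x) : Orb g f b x := by
  induction h with
  | base => exact Orb.base
  | stepf _ ih => exact ih.stepg
  | stepg _ ih => exact ih.stepf

/-- If the set of `x` with `inl x` in the orbit is closed under both reflections it is
everything. -/
theorem all_of_reflections (hm : Odd m) {i j : ZMod m} (hij : IsUnit (i - j)) (S : Set (ZMod m))
    {b : ZMod m} (hb : b ∈ S) (h1 : ∀ x ∈ S, 2 * i - x ∈ S) (h2 : ∀ x ∈ S, 2 * j - x ∈ S)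
    (y : ZMod m) : y ∈ S := by
  have hk : ∀ k : ℕ, b + k * (2 * (i - j)) ∈ S := by
    intro k
    induction k with
    | zero => simpa using hb
    | succ k ih =>
      have := h1 _ (h2 _ ih)
      convert this using 1
      push_cast
      ring
  have hu : IsUnit (2 * (i - j)) := (two_unit hm).mul hij
  have := hk ((y - b) * (2 * (i - j))⁻¹).val
  rw [ZMod.natCast_zmod_val, mul_assoc, ZMod.inv_mul_of_unit _ hu, mul_one] at this
  simpa using this

/-- the symmetry exchanging the two factors -/
def tau (c : ZMod m) : ZMod m ⊕ NZ q → ZMod m ⊕ NZ q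
  | .inl x => .inl (c - x)
  | .inr w => .inr (ng w)

theorem tau_fac (hz : Glue m q z) {i j : ZMod m} (hi : i ≠ 0) (hj : j ≠ 0)
    (x : ZMod m ⊕ NZ q) :
    tau (i + j) (fac z (.inl i) x) = fac z (.inl j) (tau (i + j) x) := by
  rcases x with x | w
  · by_cases hx : ∃ w : NZ q, x = i + z w.1
    · obtain ⟨w, rfl⟩ := hx
      rw [fac_iz hz hi]
      show Sum.inr (ng w) = fac z (.inl j) (.inl (i + j - (i + z w.1)))
      have : i + j - (i + z w.1) = j + z (ng w).1 := by
        show _ = j + z (-w.1)
        rw [hz.neg]; ring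
      rw [this, fac_iz hz hj]
    · push Not at hx
      rw [fac_ix hi hx]
      show Sum.inl (i + j - (2 * i - x)) = fac z (.inl j) (.inl (i + j - x))
      rw [fac_ix hj]
      · congr 1; ring
      · intro w hw
        apply hx (ng w)
        show x = i + z (-w.1)
        rw [hz.neg]
        linear_combination -hw
  · rw [fac_iw hi]
    show Sum.inl (i + j - (i + z w.1)) = fac z (.inl j) (.inr (ng w))
    rw [fac_iw hj]
    congr 1
    show _ = j + z (-w.1)
    rw [hz.neg]; ring

theorem orb_nonzero (hm : Odd m) (hz : Glue m q z) {i j : ZMod m} (hi : i ≠ 0) (hj : j ≠ 0)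
    (hij : IsUnit (i - j)) (y : ZMod m ⊕ NZ q) :
    Orb (fac z (.inl i)) (fac z (.inl j)) (.inl ((2 : ZMod m)⁻¹ * (i + j))) y := by
  set f := fac z (.inl i) with hf
  set g := fac z (.inl j) with hg
  set b : ZMod m ⊕ NZ q := .inl ((2 : ZMod m)⁻¹ * (i + j)) with hb
  have hτb : tau (i + j) b = b := by
    rw [hb]
    show Sum.inl (i + j - (2 : ZMod m)⁻¹ * (i + j)) = _
    congr 1
    have h2 : (2 : ZMod m)⁻¹ * 2 = 1 := ZMod.inv_mul_of_unit _ (two_unit hm)
    linear_combination (-(i + j)) * h2
  have hτ : ∀ x, Orb f g b x → Orb f g b (tau (i + j) x) := by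
    intro x h
    induction h with
    | base => rw [hτb]; exact Orb.base
    | @stepf x _ ih =>
      rw [hf, tau_fac hz hi hj]
      exact ih.stepg
    | @stepg x _ ih =>
      rw [hg, add_comm i j, tau_fac hz hj hi, add_comm j i]
      exact ih.stepf
  have r1 : ∀ x : ZMod m, Orb f g b (.inl x) → Orb f g b (.inl (2 * i - x)) := by
    intro x h
    by_cases hx : ∃ w : NZ q, x = i + z w.1
    · obtain ⟨w, rfl⟩ := hx
      have h1 := h.stepf
      rw [hf, fac_iz hz hi] at h1
      have h2 := (hτ _ h1).stepf
      change Orb f g b (f (.inr (ng w))) at h2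
      rw [hf, fac_iw hi] at h2
      convert h2 using 2
      show _ = i + z (-w.1)
      rw [hz.neg]; ring
    · push Not at hx
      have h1 := h.stepf
      rwa [hf, fac_ix hi hx] at h1
  have r2 : ∀ x : ZMod m, Orb f g b (.inl x) → Orb f g b (.inl (2 * j - x)) := by
    intro x h
    by_cases hx : ∃ w : NZ q, x = j + z w.1
    · obtain ⟨w, rfl⟩ := hx
      have h1 := h.stepg
      rw [hg, fac_iz hz hj] at h1
      have h2 := (hτ _ h1).stepg
      change Orb f g b (g (.inr (ng w))) at h2
      rw [hg, fac_iw hj] at h2
      convert h2 using 2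
      show _ = j + z (-w.1)
      rw [hz.neg]; ring
    · push Not at hx
      have h1 := h.stepg
      rwa [hg, fac_ix hj hx] at h1
  have hall : ∀ x : ZMod m, Orb f g b (.inl x) :=
    all_of_reflections hm hij {x | Orb f g b (.inl x)} (b := (2 : ZMod m)⁻¹ * (i + j))
      Orb.base r1 r2
  rcases y with y | w
  · exact hall y
  · have h1 := (hall (i + z w.1)).stepf
    rwa [hf, fac_iz hz hi] at h1

theorem orb_zero (hm : Odd m) (hz : Glue m q z) {j : ZMod m} (hj : j ≠ 0)
    (hij : IsUnit j) (y : ZMod m ⊕ NZ q) :
    Orb (fac z (.inl 0)) (fac z (.inl j)) (.inl 0) y := by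
  set f := fac z (.inl 0) with hf
  set g := fac z (.inl j) with hg
  set b : ZMod m ⊕ NZ q := .inl 0 with hb
  have r1 : ∀ x : ZMod m, Orb f g b (.inl x) → Orb f g b (.inl (2 * 0 - x)) := by
    intro x h
    have h1 := h.stepf
    rw [hf, fac_0x] at h1
    simpa using h1
  have r2 : ∀ x : ZMod m, Orb f g b (.inl x) → Orb f g b (.inl (2 * j - x)) := by
    intro x h
    by_cases hx : ∃ w : NZ q, x = j + z w.1
    · obtain ⟨w, rfl⟩ := hx
      have h1 := h.stepg
      rw [hg, fac_iz hz hj] at h1
      have h2 := h1.stepf
      rw [hf, fac_0w] at h2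
      have h3 := h2.stepg
      rw [fac_iw hj] at h3
      convert h3 using 2
      show _ = j + z (-w.1)
      rw [hz.neg]; ring
    · push Not at hx
      have h1 := h.stepg
      rwa [hg, fac_ix hj hx] at h1
  have hall : ∀ x : ZMod m, Orb f g b (.inl x) :=
    all_of_reflections hm (i := 0) (j := j) (by simpa using hij)
      {x | Orb f g b (.inl x)} (b := 0) Orb.base r1 r2
  rcases y with y | w
  · exact hall y
  · have h1 := (hall (j + z w.1)).stepg
    rwa [hg, fac_iz hz hj] at h1

theorem orb_all (hm : Odd m) (hz : Glue m q z) {i j : ZMod m} (hne : i ≠ j)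
    (hij : IsUnit (i - j)) :
    ∃ b, ∀ y, Orb (fac z (.inl i)) (fac z (.inl j)) b y := by
  by_cases hi : i = 0
  · subst hi
    have hj : j ≠ 0 := fun h => hne h.symm
    have hu : IsUnit j := by
      have := hij.neg
      simpa using this
    exact ⟨_, orb_zero hm hz hj hu⟩
  · by_cases hj : j = 0
    · subst hj
      have hu : IsUnit i := by simpa using hij
      exact ⟨_, fun y => (orb_zero hm hz hi hu y).swap⟩
    · exact ⟨_, orb_nonzero hm hz hi hj hij⟩

theorem card_vert : Fintype.card (ZMod m ⊕ NZ q) = m + (q - 1) := by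
  rw [Fintype.card_sum, ZMod.card]
  congr 1
  have h1 : Fintype.card (NZ q) = Fintype.card (ZMod q) - 1 := by
    simp
  rw [h1, ZMod.card]

/-- The main construction. -/
theorem main_construction (hm : Odd m) (hq : Odd q) (hz : Glue m q z) :
    ∃ F : Fin (m + (q - 1)) → Finset (Sym2 (Fin (m + (q - 1)))),
      IsNearFactorization (m + (q - 1)) F ∧
      ∃ e : ZMod m ↪ Fin (m + (q - 1)), ∀ i j : ZMod m, i ≠ j → IsUnit (i - j) →
        HamPair (F (e i)) (F (e j)) := by
  classical
  obtain ⟨F, hF, e, he⟩ := exists_near (card_vert (m := m) (q := q)) (fac z) (fac_inv hm hz)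
    (fun x i j h => fac_inj hm hq hz x i j h) (fun i => match i with
      | .inl i => .inl i
      | .inr l => .inr (dbl hq l)) (fac_fix hm hq hz)
  refine ⟨F, hF, ⟨fun i => e (.inl i), fun i j h => Sum.inl_injective (e.injective h)⟩, ?_⟩
  intro i j hne hij
  exact he _ _ (orb_all hm hz hne hij)

end construction

end Pool.Agent.Helper53.P1F
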