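import Mathlib
import Pool.Agent.Helper53.P1F.Construct

set_option autoImplicit false

/-!
# Existence of the gluing map
-/

namespace Pool.Agent.Helper53.P1F

open Finset

/-- the residues coprime to `m` in the lower half -/
def low (m : ℕ) : Finset ℕ := (range m).filter (fun a => m.Coprime a ∧ 2 * a < m)

theorem totient_le_two_low {m : ℕ} (hm : Odd m) : Nat.totient m ≤ 2 * (low m).card := by
  classical
  have hsub : (range m).filter (fun a => m.Coprime a) ⊆ low m ∪ (low m).image (fun a => m - a) := by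
    intro a ha
    rw [mem_filter, mem_range] at ha
    rw [mem_union, mem_image]
    unfold low
    simp only [mem_filter, mem_range]
    by_cases h : 2 * a < m
    · exact Or.inl ⟨ha.1, ha.2, h⟩
    · right
      obtain ⟨b, hb⟩ := hm
      refine ⟨m - a, ⟨by omega, ?_, by omega⟩, by omega⟩
      exact (Nat.coprime_self_sub_right (by omega)).mpr ha.2
  calc Nat.totient m = ((range m).filter (fun a => m.Coprime a)).card := by
        rw [Nat.totient_eq_card_coprime]
    _ ≤ (low m ∪ (low m).image (fun a => m - a)).card := card_le_card hsub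
    _ ≤ (low m).card + ((low m).image (fun a => m - a)).card := card_union_le _ _
    _ ≤ (low m).card + (low m).card := by
        have := card_image_le (s := low m) (f := fun a => m - a)
        omega
    _ = 2 * (low m).card := by ring

theorem exists_glue {m q : ℕ} [NeZero m] [NeZero q] (hm : Odd m) (hm1 : 1 < m) (hq : Odd q)
    (h : q - 1 ≤ Nat.totient m) : ∃ z : ZMod q → ZMod m, Glue m q z := by
  classical
  obtain ⟨s, hs⟩ := hq
  have hcard : Fintype.card (Fin s) ≤ Fintype.card (low m) := by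
    rw [Fintype.card_fin, Fintype.card_coe]
    have := totient_le_two_low hm
    omega
  obtain ⟨g0⟩ := Function.Embedding.nonempty_of_card_le hcard
  let g : ℕ → ℕ := fun k => if h : k - 1 < s then (g0 ⟨k - 1, h⟩ : low m).1 else 0
  have hg : ∀ k, 1 ≤ k → k ≤ s → g k < m ∧ m.Coprime (g k) ∧ 2 * g k < m := by
    intro k h1 h2
    have hk : k - 1 < s := by omega
    have := (g0 ⟨k - 1, hk⟩).2
    unfold low at this
    rw [mem_filter, mem_range] at this
    have e : g k = (g0 ⟨k - 1, hk⟩).1 := by simp only [g, dif_pos hk]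
    rw [e]
    exact ⟨this.1, this.2.1, this.2.2⟩
  have hginj : ∀ k k', 1 ≤ k → k ≤ s → 1 ≤ k' → k' ≤ s → g k = g k' → k = k' := by
    intro k k' h1 h2 h1' h2' he
    have hk : k - 1 < s := by omega
    have hk' : k' - 1 < s := by omega
    have e : g k = (g0 ⟨k - 1, hk⟩).1 := by simp only [g, dif_pos hk]
    have e' : g k' = (g0 ⟨k' - 1, hk'⟩).1 := by simp only [g, dif_pos hk']
    rw [e, e'] at he
    have := g0.injective (Subtype.ext he)
    have := congrArg Fin.val this
    simp only at this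
    omega
  have hrange : ∀ w : ZMod q, w ≠ 0 → 1 ≤ w.valMinAbs.natAbs ∧ w.valMinAbs.natAbs ≤ s := by
    intro w hw
    have h1 := ZMod.natAbs_valMinAbs_le w
    have h2 : w.valMinAbs ≠ 0 := by rwa [Ne, ZMod.valMinAbs_eq_zero]
    omega
  have hneg : ∀ w : ZMod q, (-w).valMinAbs = - w.valMinAbs := by
    intro w
    apply ZMod.valMinAbs_neg_of_ne_half
    omega
  refine ⟨fun w => ((w.valMinAbs.sign : ℤ) : ZMod m) * (g w.valMinAbs.natAbs : ZMod m),
    ?_, ?_, ?_⟩
  · intro w
    simp only [hneg, Int.sign_neg, Int.natAbs_neg, Int.cast_neg]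
    ring
  · intro w w' hw hw' he
    obtain ⟨a1, a2⟩ := hrange w hw
    obtain ⟨b1, b2⟩ := hrange w' hw'
    obtain ⟨c1, c2, c3⟩ := hg _ a1 a2
    obtain ⟨d1, d2, d3⟩ := hg _ b1 b2
    have hz : ∀ x : ZMod q, x ≠ 0 → x.valMinAbs ≠ 0 := by
      intro x hx
      rwa [Ne, ZMod.valMinAbs_eq_zero]
    have key : ∀ {G G' : ℕ}, G < m → G' < m → 2 * G < m → 2 * G' < m → m.Coprime G →
        (G : ZMod m) = -(G' : ZMod m) → False := by
      intro G G' h1 h2 h3 h4 h5 h6
      have h7 : ((G + G' : ℕ) : ZMod m) = 0 := by push_cast; rw [h6]; ring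
      rw [ZMod.natCast_eq_zero_iff] at h7
      have h8 := Nat.eq_zero_of_dvd_of_lt h7 (by omega)
      have h9 : G = 0 := by omega
      rw [h9] at h5
      have : m = 1 := by simpa using h5
      omega
    have key2 : ∀ {G G' : ℕ}, G < m → G' < m → (G : ZMod m) = (G' : ZMod m) → G = G' := by
      intro G G' h1 h2 h3
      have h5 := (ZMod.natCast_eq_natCast_iff' _ _ _).mp h3
      rwa [Nat.mod_eq_of_lt h1, Nat.mod_eq_of_lt h2] at h5
    have fin : w.valMinAbs = w'.valMinAbs → w = w' := fun h => by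
      rw [← ZMod.coe_valMinAbs w, ← ZMod.coe_valMinAbs w', h]
    rcases lt_or_gt_of_ne (hz w hw) with p1 | p1 <;> rcases lt_or_gt_of_ne (hz w' hw') with p2 | p2
    · rw [Int.sign_eq_neg_one_of_neg p1, Int.sign_eq_neg_one_of_neg p2] at he
      push_cast at he
      have h1 := key2 c1 d1 (by linear_combination -he)
      have h2 := hginj _ _ a1 a2 b1 b2 h1
      apply fin
      omega
    · rw [Int.sign_eq_neg_one_of_neg p1, Int.sign_eq_one_of_pos p2] at he
      push_cast at he
      exact (key c1 d1 c3 d3 c2 (by linear_combination -he)).elim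
    · rw [Int.sign_eq_one_of_pos p1, Int.sign_eq_neg_one_of_neg p2] at he
      push_cast at he
      exact (key c1 d1 c3 d3 c2 (by linear_combination he)).elim
    · rw [Int.sign_eq_one_of_pos p1, Int.sign_eq_one_of_pos p2] at he
      push_cast at he
      have h1 := key2 c1 d1 (by linear_combination he)
      have h2 := hginj _ _ a1 a2 b1 b2 h1
      apply fin
      omega
  · intro w hw
    obtain ⟨a1, a2⟩ := hrange w hw
    obtain ⟨c1, c2, c3⟩ := hg _ a1 a2
    have hu : IsUnit ((g w.valMinAbs.natAbs : ℕ) : ZMod m) :=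
      (ZMod.isUnit_iff_coprime _ _).mpr c2.symm
    have hz : w.valMinAbs ≠ 0 := by rwa [Ne, ZMod.valMinAbs_eq_zero]
    rcases lt_or_gt_of_ne hz with p1 | p1
    · simp only [Int.sign_eq_neg_one_of_neg p1]
      push_cast
      rw [neg_one_mul]
      exact hu.neg
    · simp only [Int.sign_eq_one_of_pos p1]
      push_cast
      rw [one_mul]
      exact hu

/-- The construction for an odd modulus `m` and an odd number `n` of vertices with
`m ≤ n ≤ m + φ(m)`. -/
theorem construction' {m n : ℕ} (hm : Odd m) (hm1 : 1 < m) (hn : Odd n) (h1 : m ≤ n)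
    (h2 : n ≤ m + Nat.totient m) :
    ∃ F : Fin n → Finset (Sym2 (Fin n)), IsNearFactorization n F ∧
      ∃ e : ZMod m ↪ Fin n, ∀ i j : ZMod m, i ≠ j → IsUnit (i - j) →
        HamPair (F (e i)) (F (e j)) := by
  obtain ⟨r, rfl⟩ := Nat.exists_eq_add_of_le h1
  have hq : Odd (r + 1) := by
    rcases hm with ⟨a, ha⟩
    rcases hn with ⟨b, hb⟩
    exact ⟨b - a, by omega⟩
  have : NeZero m := ⟨by omega⟩
  obtain ⟨z, hz⟩ := exists_glue (m := m) (q := r + 1) hm hm1 hq (by simpa using h2)
  exact main_construction (m := m) (q := r + 1) (z := z) hm hq hz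

/-- **Partial perfect one-factorizations.** -/
theorem prime_case {p n : ℕ} (hp : p.Prime) (hp2 : Odd p) (hn : Odd n) (h1 : p ≤ n)
    (h2 : n < 2 * p) :
    ∃ F : Fin n → Finset (Sym2 (Fin n)), IsNearFactorization n F ∧
      ∃ I : Finset (Fin n), I.card = p ∧
        ∀ i ∈ I, ∀ j ∈ I, i ≠ j → HamPair (F i) (F j) := by
  have : NeZero p := ⟨hp.ne_zero⟩
  have : Fact p.Prime := ⟨hp⟩
  obtain ⟨F, hF, e, he⟩ := construction' hp2 hp.one_lt hn h1
    (by rw [Nat.totient_prime hp]; omega)
  refine ⟨F, hF, univ.map e, ?_, ?_⟩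
  · rw [card_map, card_univ, ZMod.card]
  · intro i hi j hj hij
    rw [mem_map] at hi hj
    obtain ⟨a, _, rfl⟩ := hi
    obtain ⟨b, _, rfl⟩ := hj
    have hab : a ≠ b := fun h => hij (by rw [h])
    exact he a b hab (isUnit_iff_ne_zero.mpr (sub_ne_zero.mpr hab))

end Pool.Agent.Helper53.P1F
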