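import Mathlib
import Pool.Agent.Helper53.P1F.Glue

set_option autoImplicit false

/-!
# Almost all pairs: the arithmetic
-/

namespace Pool.Agent.Helper53.P1F

open Finset

theorem prod_bound (s : Finset ℕ) {K : ℝ} (hK : 1 ≤ K) (h : ∀ p ∈ s, K ≤ (p : ℝ)) :
    0 ≤ ∏ p ∈ s, (1 - (p : ℝ)⁻¹) ∧ ∏ p ∈ s, (1 - (p : ℝ)⁻¹) ≤ 1 ∧
      1 - (s.card : ℝ) / K ≤ ∏ p ∈ s, (1 - (p : ℝ)⁻¹) := by
  classical
  induction s using Finset.induction_on with
  | empty => simp
  | insert a s ha ih =>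
    obtain ⟨h1, h2, h3⟩ := ih (fun p hp => h p (mem_insert_of_mem hp))
    have haK := h a (mem_insert_self _ _)
    have hK0 : (0 : ℝ) < K := by linarith
    have ha1 : (1 : ℝ) ≤ a := le_trans hK haK
    have hinv : (a : ℝ)⁻¹ ≤ K⁻¹ := inv_anti₀ hK0 haK
    have hinv1 : (a : ℝ)⁻¹ ≤ 1 := inv_le_one_of_one_le₀ ha1
    have hinv0 : (0 : ℝ) ≤ (a : ℝ)⁻¹ := by positivity
    rw [prod_insert ha, card_insert_of_notMem ha]
    refine ⟨mul_nonneg (by linarith) h1, ?_, ?_⟩
    · calc (1 - (a : ℝ)⁻¹) * ∏ p ∈ s, (1 - (p : ℝ)⁻¹) ≤ 1 * 1 :=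
            mul_le_mul (by linarith) h2 h1 (by norm_num)
        _ = 1 := by norm_num
    · push_cast
      have e : 1 - ((s.card : ℝ) + 1) / K = 1 - (s.card : ℝ) / K - K⁻¹ := by
        field_simp
        ring
      rw [e]
      have : (a : ℝ)⁻¹ * ∏ p ∈ s, (1 - (p : ℝ)⁻¹) ≤ (a : ℝ)⁻¹ * 1 :=
        mul_le_mul_of_nonneg_left h2 hinv0
      nlinarith

theorem totient_ge {m : ℕ} {K : ℝ} (hK : 1 ≤ K)
    (h : ∀ p ∈ m.primeFactors, K ≤ (p : ℝ)) :
    (m : ℝ) * (1 - (m.primeFactors.card : ℝ) / K) ≤ Nat.totient m := by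
  have h1 := (prod_bound m.primeFactors hK h).2.2
  have h2 : (Nat.totient m : ℝ) = m * ∏ p ∈ m.primeFactors, (1 - (p : ℝ)⁻¹) := by
    have := Nat.totient_eq_mul_prod_factors m
    have h3 := congrArg (fun x : ℚ => (x : ℝ)) this
    push_cast at h3
    exact h3
  rw [h2]
  exact mul_le_mul_of_nonneg_left h1 (by positivity)

theorem pow_omega_le {m K : ℕ} (hm : 0 < m) (h : ∀ p ∈ m.primeFactors, K ≤ p) :
    K ^ m.primeFactors.card ≤ m := by
  calc K ^ m.primeFactors.card ≤ ∏ p ∈ m.primeFactors, p := by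
        rw [← Finset.prod_const]
        exact Finset.prod_le_prod' h
    _ ≤ m := Nat.le_of_dvd hm (Nat.prod_primeFactors_dvd m)

/-- the modulus used for `n` -/
def modu (K n : ℕ) : ℕ := 1 + primorial K * ((n - 1) / primorial K)

theorem modu_le {K n : ℕ} (hn : 1 ≤ n) : modu K n ≤ n := by
  unfold modu
  have := Nat.mul_div_le (n - 1) (primorial K)
  omega

theorem lt_modu {K n : ℕ} (hn : 1 ≤ n) : n < modu K n + primorial K := by
  unfold modu
  have h := Nat.lt_mul_div_succ (n - 1) (primorial_pos K)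
  rw [mul_add, mul_one] at h
  omega

theorem modu_odd {K n : ℕ} (hK : 2 ≤ K) : Odd (modu K n) := by
  unfold modu
  have h2 : 2 ∣ primorial K := by
    unfold primorial
    apply Finset.dvd_prod_of_mem (fun p => p)
    rw [mem_filter, mem_range]
    exact ⟨by omega, Nat.prime_two⟩
  obtain ⟨c, hc⟩ := h2
  rw [hc]
  exact ⟨c * ((n - 1) / (2 * c)), by ring⟩

theorem modu_factor {K n p : ℕ} (hp : p ∈ (modu K n).primeFactors) : K ≤ p := by
  have hpp := Nat.prime_of_mem_primeFactors hp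
  have hd := Nat.dvd_of_mem_primeFactors hp
  by_contra hlt
  push Not at hlt
  have h2 : p ∣ primorial K := by
    unfold primorial
    apply Finset.dvd_prod_of_mem (fun p => p)
    rw [mem_filter, mem_range]
    exact ⟨by omega, hpp⟩
  unfold modu at hd
  have h3 : p ∣ primorial K * ((n - 1) / primorial K) := h2.mul_right _
  have h4 : p ∣ 1 := (Nat.dvd_add_left h3).mp hd
  exact hpp.one_lt.ne' (Nat.dvd_one.mp h4)

theorem count_pairs {m n : ℕ} (hm : Odd m) (hm1 : 1 < m) (hn : Odd n) (h1 : m ≤ n)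
    (h2 : n ≤ m + Nat.totient m) :
    ∃ F : Fin n → Finset (Sym2 (Fin n)), IsNearFactorization n F ∧
      m * Nat.totient m ≤
        {ij : Fin n × Fin n | ij.1 ≠ ij.2 ∧ HamPair (F ij.1) (F ij.2)}.ncard := by
  classical
  have : NeZero m := ⟨by omega⟩
  have : Fact (1 < m) := ⟨hm1⟩
  obtain ⟨F, hF, e, he⟩ := construction' hm hm1 hn h1 h2
  refine ⟨F, hF, ?_⟩
  let ψ : (ZMod m)ˣ × ZMod m → Fin n × Fin n := fun ub => (e (ub.2 + ub.1), e ub.2)
  have hψ : Function.Injective ψ := by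
    rintro ⟨u, b⟩ ⟨u', b'⟩ h
    simp only [ψ, Prod.mk.injEq] at h
    have h2 := e.injective h.2
    have h1 := e.injective h.1
    subst h2
    have h3 : (u : ZMod m) = u' := add_left_cancel h1
    rw [Units.ext h3]
  have hcard : (univ.image ψ).card = m * Nat.totient m := by
    rw [card_image_of_injective _ hψ, card_univ, Fintype.card_prod, ZMod.card_units_eq_totient,
      ZMod.card, mul_comm]
  rw [← hcard, ← Set.ncard_coe_finset]
  apply Set.ncard_le_ncard _ (Set.toFinite _)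
  intro ij hij
  rw [Finset.mem_coe, mem_image] at hij
  obtain ⟨⟨u, b⟩, _, rfl⟩ := hij
  have hne : b + (u : ZMod m) ≠ b := by
    intro h
    have : (u : ZMod m) = 0 := by linear_combination h
    exact u.ne_zero this
  refine ⟨fun h => hne (e.injective h), ?_⟩
  apply he _ _ hne
  have : b + (u : ZMod m) - b = u := by ring
  rw [this]
  exact u.isUnit

theorem scale {K n : ℕ} (hK : 2 ≤ K) (h1 : 16 ^ K ≤ n) (h2 : n < 16 ^ (K + 1)) (hn : Odd n)
    {ε : ℝ} (hε : ε ≤ 1 / 2)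
    (hKε : 2 * (1 / 4 : ℝ) ^ K + 2 * Real.log 16 / Real.log K ≤ ε) :
    ∃ F : Fin n → Finset (Sym2 (Fin n)), IsNearFactorization n F ∧
      (1 - ε) * ((n : ℝ) * ((n : ℝ) - 1)) ≤
        {ij : Fin n × Fin n | ij.1 ≠ ij.2 ∧ HamPair (F ij.1) (F ij.2)}.ncard := by
  have hn1 : 1 ≤ n := le_trans Nat.one_le_two_pow (le_trans (Nat.pow_le_pow_left (by norm_num) K) h1)
  set m := modu K n with hmdef
  set η : ℝ := (1 / 4 : ℝ) ^ K with hη
  set δ : ℝ := 2 * Real.log 16 / Real.log K with hδ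
  have hKr : (2 : ℝ) ≤ K := by exact_mod_cast hK
  have hlogK : 0 < Real.log K := Real.log_pos (by linarith)
  have hlog16 : 0 < Real.log 16 := Real.log_pos (by norm_num)
  have hη0 : 0 < η := by positivity
  have hδ0 : 0 < δ := by positivity
  have hmn : m ≤ n := modu_le hn1
  have hnm : n < m + primorial K := lt_modu hn1
  have hmodd : Odd m := modu_odd hK
  have hfac : ∀ p ∈ m.primeFactors, K ≤ p := fun p hp => modu_factor hp
  have hm0 : 0 < m := by rcases hmodd with ⟨a, ha⟩; omega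
  -- primorial
  have hP : (primorial K : ℝ) ≤ η * n := by
    have a1 : (primorial K : ℝ) ≤ (4 : ℝ) ^ K := by exact_mod_cast primorial_le_four_pow K
    have a2 : ((16 : ℝ)) ^ K ≤ n := by exact_mod_cast h1
    have a3 : η * (16 : ℝ) ^ K = (4 : ℝ) ^ K := by
      rw [hη, ← mul_pow]; norm_num
    calc (primorial K : ℝ) ≤ (4 : ℝ) ^ K := a1
      _ = η * (16 : ℝ) ^ K := a3.symm
      _ ≤ η * n := mul_le_mul_of_nonneg_left a2 hη0.le
  have hnr : (0 : ℝ) < n := by exact_mod_cast hn1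
  have hmr : (n : ℝ) * (1 - η) ≤ m := by
    have : (n : ℝ) ≤ m + primorial K := by exact_mod_cast hnm.le
    linarith [hP]
  -- number of prime factors
  have hω : (m.primeFactors.card : ℝ) / K ≤ δ := by
    have b1 : ((K : ℝ)) ^ m.primeFactors.card ≤ (16 : ℝ) ^ (K + 1) := by
      have := pow_omega_le hm0 hfac
      have : K ^ m.primeFactors.card ≤ 16 ^ (K + 1) := by omega
      exact_mod_cast this
    have b2 := Real.log_le_log (by positivity) b1
    rw [Real.log_pow, Real.log_pow] at b2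
    push_cast at b2
    rw [hδ, div_le_div_iff₀ (by linarith) hlogK]
    have b3 : ((K : ℝ) + 1) * Real.log 16 ≤ 2 * Real.log 16 * K := by nlinarith
    linarith
  have htot : (m : ℝ) * (1 - δ) ≤ Nat.totient m := by
    have c1 := totient_ge (m := m) (K := (K : ℝ)) (by linarith)
      (fun p hp => by exact_mod_cast hfac p hp)
    have c2 : (m : ℝ) * (1 - δ) ≤ (m : ℝ) * (1 - (m.primeFactors.card : ℝ) / K) :=
      mul_le_mul_of_nonneg_left (by linarith) (by positivity)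
    linarith
  have hδε : δ ≤ 1 / 2 := by linarith
  have hηε : η ≤ 1 / 4 := by linarith
  have hm1 : 1 < m := by
    have d1 : (16 : ℝ) ^ 1 ≤ n := by
      calc (16 : ℝ) ^ 1 ≤ 16 ^ K := pow_le_pow_right₀ (by norm_num) (by omega)
        _ ≤ n := by exact_mod_cast h1
    have d2 : (1 : ℝ) < m := by nlinarith
    exact_mod_cast d2
  have h3 : n ≤ m + Nat.totient m := by
    have e1 : (n : ℝ) ≤ m + Nat.totient m := by nlinarith
    exact_mod_cast e1
  obtain ⟨F, hF, hc⟩ := count_pairs hmodd hm1 hn hmn h3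
  refine ⟨F, hF, ?_⟩
  have hc' : ((m : ℝ) * Nat.totient m) ≤
      {ij : Fin n × Fin n | ij.1 ≠ ij.2 ∧ HamPair (F ij.1) (F ij.2)}.ncard := by
    exact_mod_cast hc
  refine le_trans ?_ hc'
  have g1 : (m : ℝ) * (m * (1 - δ)) ≤ m * Nat.totient m :=
    mul_le_mul_of_nonneg_left htot (by positivity)
  have g2 : ((n : ℝ) * (1 - η)) * (n * (1 - η)) ≤ m * m :=
    mul_le_mul hmr hmr (mul_nonneg hnr.le (by linarith)) (by positivity)
  have g3 : ((n : ℝ) * (1 - η)) * (n * (1 - η)) * (1 - δ) ≤ m * m * (1 - δ) :=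
    mul_le_mul_of_nonneg_right g2 (by linarith)
  have g4 : (1 - ε) ≤ (1 - η) * (1 - η) * (1 - δ) := by nlinarith [mul_pos hη0 hδ0]
  have g5 : (1 - ε) * ((n : ℝ) * n) ≤ ((1 - η) * (1 - η) * (1 - δ)) * (n * n) :=
    mul_le_mul_of_nonneg_right g4 (by positivity)
  have g6 : (1 - ε) * ((n : ℝ) * ((n : ℝ) - 1)) ≤ (1 - ε) * ((n : ℝ) * n) := by
    apply mul_le_mul_of_nonneg_left _ (by linarith)
    nlinarith
  nlinarith

theorem eventually_small {ε : ℝ} (hε : 0 < ε) :
    ∃ K0 : ℕ, ∀ K ≥ K0, 2 * (1 / 4 : ℝ) ^ K + 2 * Real.log 16 / Real.log K ≤ ε := by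
  have t1 : Filter.Tendsto (fun K : ℕ => 2 * (1 / 4 : ℝ) ^ K) Filter.atTop (nhds 0) := by
    have := (tendsto_pow_atTop_nhds_zero_of_lt_one (r := (1 / 4 : ℝ)) (by norm_num)
      (by norm_num)).const_mul 2
    simpa using this
  have t2 : Filter.Tendsto (fun K : ℕ => 2 * Real.log 16 / Real.log (K : ℝ)) Filter.atTop
      (nhds 0) := by
    apply Filter.Tendsto.const_div_atTop
    exact Real.tendsto_log_atTop.comp tendsto_natCast_atTop_atTop
  have t3 := t1.add t2
  rw [add_zero] at t3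
  obtain ⟨K0, hK0⟩ := Filter.eventually_atTop.mp (t3.eventually (gt_mem_nhds hε))
  exact ⟨K0, fun K hK => (hK0 K hK).le⟩

/-- **Almost all pairs.** -/
theorem almost_all {ε : ℝ} (hε : 0 < ε) :
    ∃ N0 : ℕ, ∀ n : ℕ, N0 ≤ n → Odd n →
      ∃ F : Fin n → Finset (Sym2 (Fin n)), IsNearFactorization n F ∧
        (1 - ε) * ((n : ℝ) * ((n : ℝ) - 1)) ≤
          {ij : Fin n × Fin n | ij.1 ≠ ij.2 ∧ HamPair (F ij.1) (F ij.2)}.ncard := by
  obtain ⟨K0, hK0⟩ := eventually_small (ε := min ε (1 / 2)) (by positivity)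
  refine ⟨16 ^ (K0 + 2), fun n hn hodd => ?_⟩
  have hn0 : n ≠ 0 := by rintro rfl; exact absurd hodd (by decide)
  have hK : K0 + 2 ≤ Nat.log 16 n := Nat.le_log_of_pow_le (by norm_num) hn
  obtain ⟨F, hF, h⟩ := scale (K := Nat.log 16 n) (by omega) (Nat.pow_log_le_self 16 hn0)
    (Nat.lt_pow_succ_log_self (by norm_num) n) hodd (min_le_right ε (1 / 2))
    (hK0 _ (by omega))
  refine ⟨F, hF, le_trans ?_ h⟩
  apply mul_le_mul_of_nonneg_right
  · have := min_le_left ε (1 / 2)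
    linarith
  · have : (1 : ℝ) ≤ n := by exact_mod_cast Nat.one_le_iff_ne_zero.mpr hn0
    nlinarith

end Pool.Agent.Helper53.P1F
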